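import Pool.Agent.Helper95.TDS.Dominate
import Pool.Agent.Helper95.TDS.Labels

/-!
The uniform domination number of the alternating group of degree 14 is 4, while its base size on
5-subsets is 5. Hence the equality asked for in Q1 fails for n = 14.
-/

namespace Pool.Agent.Results.MP_6f5538_al.Degree14

open Pool.Agent.Helper95.TDS Equiv Equiv.Perm MulAction
open scoped Pointwise

/-- `S` is a total dominating set of `G`: every nontrivial `x` generates `G` together with some
element of `S`. -/
def IsTDS (G : Type*) [Group G] (S : Set G) : Prop :=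
  ∀ x : G, x ≠ 1 → ∃ s ∈ S, Subgroup.closure {x, s} = ⊤

/-- The uniform domination number: the smallest size of a total dominating set contained in a
single conjugacy class. -/
noncomputable def uniformDominationNumber (G : Type*) [Group G] : ℕ :=
  sInf {d | ∃ S : Finset G, S.card = d ∧ (∃ s : G, ∀ t ∈ S, IsConj s t) ∧ IsTDS G (S : Set G)}

/-- The base size of an action: the smallest size of a subset with trivial pointwise
stabiliser. -/
noncomputable def baseSize (G Ω : Type*) [Group G] [MulAction G Ω] : ℕ :=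
  sInf {d | ∃ B : Finset Ω, B.card = d ∧ ∀ g : G, (∀ ω ∈ B, g • ω = ω) → g = 1}

theorem closure_top {x t : alternatingGroup (Fin 14)}
    (h : alternatingGroup (Fin 14) ≤
      Subgroup.closure {(x : Perm (Fin 14)), (t : Perm (Fin 14))}) :
    Subgroup.closure {x, t} = ⊤ := by
  have hmap : (Subgroup.closure {x, t}).map (alternatingGroup (Fin 14)).subtype
      = Subgroup.closure {(x : Perm (Fin 14)), (t : Perm (Fin 14))} := by
    rw [MonoidHom.map_closure, Set.image_pair]
    rfl
  rw [eq_top_iff]
  intro y _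
  have hy := h y.2
  rw [← hmap] at hy
  obtain ⟨z, hz, hzy⟩ := hy
  have : z = y := Subtype.ext hzy
  rwa [← this]

theorem closure_top' {x t : alternatingGroup (Fin 14)}
    (h : Subgroup.closure {x, t} = ⊤) :
    alternatingGroup (Fin 14) ≤
      Subgroup.closure {(x : Perm (Fin 14)), (t : Perm (Fin 14))} := by
  have hmap : (Subgroup.closure {x, t}).map (alternatingGroup (Fin 14)).subtype
      = Subgroup.closure {(x : Perm (Fin 14)), (t : Perm (Fin 14))} := by
    rw [MonoidHom.map_closure, Set.image_pair]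
    rfl
  rw [← hmap, h]
  intro y hy
  exact ⟨⟨y, hy⟩, trivial, rfl⟩

theorem mem_four : ∃ d ≤ 4, d ∈ {d | ∃ S : Finset (alternatingGroup (Fin 14)), S.card = d ∧
    (∃ s : alternatingGroup (Fin 14), ∀ t ∈ S, IsConj s t) ∧
    IsTDS (alternatingGroup (Fin 14)) (S : Set (alternatingGroup (Fin 14)))} := by
  classical
  let S : Finset (alternatingGroup (Fin 14)) :=
    (Finset.range 4).image (fun k => (⟨el k, el_mem k⟩ : alternatingGroup (Fin 14)))
  refine ⟨S.card, ?_, S, rfl, ⟨⟨s, s_mem⟩, ?_⟩, ?_⟩
  · exact Finset.card_image_le.trans (by simp)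
  · intro t ht
    obtain ⟨k, _, rfl⟩ := Finset.mem_image.1 ht
    obtain ⟨g, hg, h⟩ := conj_el k
    rw [isConj_iff]
    exact ⟨⟨g, hg⟩, Subtype.ext h⟩
  · intro x hx
    have hx' : (x : Perm (Fin 14)) ≠ 1 := fun h => hx (Subtype.ext h)
    obtain ⟨k, hk, h⟩ := dominate x.2 hx'
    exact ⟨⟨el k, el_mem k⟩,
      Finset.mem_coe.2 (Finset.mem_image.2 ⟨k, Finset.mem_range.2 hk, rfl⟩), closure_top h⟩

theorem domination_eq : uniformDominationNumber (alternatingGroup (Fin 14)) = 4 := by
  classical
  obtain ⟨d, hd4, hd⟩ := mem_four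
  apply le_antisymm
  · exact (Nat.sInf_le hd).trans hd4
  · apply le_csInf ⟨d, hd⟩
    rintro e ⟨S, hS, _, hT⟩
    by_contra hlt
    push Not at hlt
    obtain ⟨g, hg, hg1, hno⟩ := three_not_dominate (S.image Subtype.val)
      (Finset.card_image_le.trans (by omega)) (by
        intro t ht
        obtain ⟨y, _, rfl⟩ := Finset.mem_image.1 ht
        exact y.2)
    obtain ⟨t, ht, htop⟩ := hT ⟨g, hg⟩ (fun h => hg1 (congrArg Subtype.val h))
    have h3 := closure_top' htop
    have ht' : (t : Perm (Fin 14)) ∈ S.image Subtype.val := Finset.mem_image_of_mem _ ht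
    exact hno (t : Perm (Fin 14)) ht' h3

theorem smul_iff {g : alternatingGroup (Fin 14)} {D : Finset (Fin 14)} :
    g • D = D ↔ ∀ p, (g : Perm (Fin 14)) p ∈ D ↔ p ∈ D := by
  constructor
  · intro h p
    have h1 : g • p ∈ g • D ↔ p ∈ D := Finset.smul_mem_smul_finset_iff g
    rw [h] at h1
    exact h1
  · intro h
    ext q
    have h1 : g⁻¹ • q ∈ D ↔ q ∈ g • D := Finset.inv_smul_mem_iff
    rw [← h1, ← h (g⁻¹ • q)]
    have : (g : Perm (Fin 14)) (g⁻¹ • q) = q := smul_inv_smul g q
    rw [this]

theorem base_eq : baseSize (alternatingGroup (Fin 14)) (Set.powersetCard (Fin 14) 5) = 5 := by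
  classical
  let B : Finset (Set.powersetCard (Fin 14) 5) :=
    Finset.univ.image (fun i : Fin 5 => (⟨D5 i, D5_card i⟩ : Set.powersetCard (Fin 14) 5))
  have hB : B.card ∈ {d | ∃ B : Finset (Set.powersetCard (Fin 14) 5), B.card = d ∧
      ∀ g : alternatingGroup (Fin 14), (∀ ω ∈ B, g • ω = ω) → g = 1} := by
    refine ⟨B, rfl, fun g hg => ?_⟩
    apply Subtype.ext
    apply D5_base
    intro i
    have h1 := hg ⟨D5 i, D5_card i⟩ (Finset.mem_image.2 ⟨i, Finset.mem_univ i, rfl⟩)
    have h2 : g • D5 i = D5 i := congrArg Subtype.val h1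
    exact smul_iff.1 h2
  apply le_antisymm
  · exact (Nat.sInf_le hB).trans (Finset.card_image_le.trans (by simp))
  · apply le_csInf ⟨_, hB⟩
    rintro e ⟨C, hC, hst⟩
    by_contra hlt
    push Not at hlt
    let D : Fin 4 → Finset (Fin 14) := fun i =>
      if h : i.val < C.card then ((C.equivFin.symm ⟨i.val, h⟩ : C) :
        Set.powersetCard (Fin 14) 5).val else {0, 1, 2, 3, 4}
    have hD : ∀ i, (D i).card = 5 := by
      intro i
      by_cases h : i.val < C.card
      · simp only [D, dif_pos h]
        exact ((C.equivFin.symm ⟨i.val, h⟩ : C) : Set.powersetCard (Fin 14) 5).2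
      · simp only [D, dif_neg h]; decide
    obtain ⟨g, hg, hg1, hfix⟩ := four_not_base D hD
    apply hg1
    have := hst ⟨g, hg⟩ (by
      intro ω hω
      apply Subtype.ext
      have h1 : ∃ i : Fin 4, D i = ω.val := by
        refine ⟨⟨(C.equivFin ⟨ω, hω⟩).val, lt_of_lt_of_le (C.equivFin ⟨ω, hω⟩).2 (by omega)⟩, ?_⟩
        have h2 : (C.equivFin ⟨ω, hω⟩).val < C.card := (C.equivFin ⟨ω, hω⟩).2
        simp only [D, dif_pos h2]
        have h3 : C.equivFin.symm ⟨(C.equivFin ⟨ω, hω⟩).val, h2⟩ = ⟨ω, hω⟩ :=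
          C.equivFin.symm_apply_apply _
        rw [h3]
      obtain ⟨i, hi⟩ := h1
      change (⟨g, hg⟩ : alternatingGroup (Fin 14)) • ω.val = ω.val
      rw [smul_iff, ← hi]
      exact hfix i)
    exact congrArg Subtype.val this

/-- Q1 has a negative answer: for n = 14 (so m = 7 and k = 5) the uniform domination number of the
alternating group is 4 while the base size on k-subsets is 5. -/
theorem result :
    (uniformDominationNumber (alternatingGroup (Fin 14)) = 4 ∧
      baseSize (alternatingGroup (Fin 14)) (Set.powersetCard (Fin 14) 5) = 5) ∧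
    ¬ ∀ m k : ℕ, 4 ≤ m → IsGreatest {j | Odd j ∧ j < m} k →
      uniformDominationNumber (alternatingGroup (Fin (2 * m))) =
        baseSize (alternatingGroup (Fin (2 * m))) (Set.powersetCard (Fin (2 * m)) k) := by
  refine ⟨⟨domination_eq, base_eq⟩, fun h => ?_⟩
  have h7 : uniformDominationNumber (alternatingGroup (Fin 14)) =
      baseSize (alternatingGroup (Fin 14)) (Set.powersetCard (Fin 14) 5) := by
    refine h 7 5 (by norm_num) ⟨⟨by decide, by norm_num⟩, ?_⟩
    rintro j ⟨hj, hj7⟩
    by_contra hcon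
    push Not at hcon
    have : j = 6 := by omega
    subst this
    exact absurd hj (by decide)
  rw [domination_eq, base_eq] at h7
  norm_num at h7

end Pool.Agent.Results.MP_6f5538_al.Degree14
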